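import Pool.Agent.H.MP_70f359_co.Cop
import Pool.Agent.H.MP_70f359_co.Rob

namespace Pool.Agent.Results.MP_70f359_co.Yes

variable {V : Type} (G : SimpleGraph V)

/-- one move: stay, or go to an adjacent vertex -/
def Step (u v : V) : Prop := u = v ∨ G.Adj u v

/-- a sequence of positions of one player in which every move is legal -/
def IsWalk (x : ℕ → V) : Prop := ∀ k, Step G (x k) (x (k + 1))

/-- `c k`, `r k` are the positions of cop and robber after their `k`-th moves (the cop moves
first); the cop catches the robber if at some moment he is on the robber's vertex -/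
def Caught (c r : ℕ → V) : Prop := ∃ k, c k = r k ∨ c (k + 1) = r k

/-- the cop has a start `c0` and a strategy `f` (his `(k+1)`-th move as a function of the list of
the robber's positions `r 0, …, r k`) that is legal and, against every play of the robber, catches
him or has him on every vertex only finitely often -/
def WeakCopWin : Prop :=
  ∃ (c0 : V) (f : List V → V), ∀ r : ℕ → V, IsWalk G r → ∀ c : ℕ → V, c 0 = c0 →
    (∀ k, c (k + 1) = f ((List.range (k + 1)).map r)) →
    IsWalk G c ∧ (Caught c r ∨ ∀ x, {k | r k = x}.Finite)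

/-- the double long return property; the strategy `g` gives the robber's `(k+1)`-th move as a
function of the list of the cop's positions `c 0, …, c (k+1)` -/
def DoubleLongReturn : Prop :=
  ∀ c0 : V, ∃ v : V, ∀ m n : ℕ, 0 < m → 0 < n → ∃ g : List V → V,
    ∀ c : ℕ → V, IsWalk G c → c 0 = c0 → ∀ r : ℕ → V, r 0 = v →
      (∀ k, r (k + 1) = g ((List.range (k + 2)).map c)) →
      IsWalk G r ∧ ¬ Caught c r ∧
        ((Set.range r).Finite ∨ ∃ t s, m ≤ t ∧ t + n ≤ s ∧ r t = v ∧ r s = v)

open Pool.Agent.H.MP_70f359_co in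
theorem result : ∃ (V : Type) (G : SimpleGraph V), G.Connected ∧
    (∀ v, (G.neighborSet v).Finite) ∧ WeakCopWin G ∧ DoubleLongReturn G := by
  refine ⟨W, Pool.Agent.H.MP_70f359_co.G, conn, fun v => ?_, weak, dlr⟩
  obtain ⟨j, k, a, -, rfl⟩ := rep v
  refine (((((Set.finite_range (e j k)).union (Set.finite_range (e j (k - 1)))).union
    (Set.finite_range (e j (k + 1)))).union (Set.finite_range (e (j + 1) 0))).union
    (Set.finite_range (e (j - 1) 0))).subset ?_
  intro w hw
  rcases nbr (Or.inr hw) with ⟨b, -, rfl⟩ | ⟨-, k', b, rfl, -, rfl⟩ | ⟨-, k', b, rfl, -, rfl⟩ |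
    ⟨-, b, -, rfl⟩ | ⟨-, b, -, rfl⟩ | ⟨-, -, b, -, rfl⟩ | ⟨-, -, b, -, rfl⟩ <;> simp

end Pool.Agent.Results.MP_70f359_co.Yes
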